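import Mathlib
import Pool.Agent.H482R3.EB.Stm

set_option autoImplicit false

namespace Pool.Agent.H482R3.EB

open Pool.Agent.H482R3.EA (W inv ev PP xx evF cond1 cond2 cV cW LIdx Syl gOf iW iV letF valS
  Sys St Near InD Adm Act)

theorem t_SYSB (hG : S_GGB) (hL : S_LXB) : S_SYSB := by
  intro V Wt hne c hc hV hW
  obtain ⟨g1, g2⟩ := hG V Wt c hW
  obtain ⟨l0, l1, l2⟩ := hL V Wt c hc hV
  refine ⟨?_, ?_, l0, l1, l2, g1, g2⟩
  · intro p
    exact ⟨Sum.inl p.1, rfl⟩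
  · intro l
    rcases l with g | ⟨i, C⟩
    · obtain ⟨v⟩ := hne
      exact ⟨(g, v), rfl⟩
    · exact ⟨(C.out, i.1.1), rfl, QuotientGroup.out_eq' C⟩

end Pool.Agent.H482R3.EB
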