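import Mathlib
import Pool.Agent.H482R3.EA.Stm

set_option autoImplicit false

namespace Pool.Agent.H482R3.EA

theorem t_SYS (hG : S_GG) (hL : S_LX) : S_SYS := by
  intro V Wt dV dW hne c hc
  obtain ⟨g1, g2⟩ := hG V Wt c
  obtain ⟨l0, l1, l2⟩ := hL V Wt dV dW c hc
  refine ⟨?_, ?_, l0, l1, l2, g1, g2⟩
  · intro p
    exact ⟨Sum.inl p.1, rfl⟩
  · intro l
    rcases l with g | ⟨i, C⟩
    · obtain ⟨v⟩ := hne
      exact ⟨(g, v), rfl⟩
    · exact ⟨(C.out, i.1.1), rfl, QuotientGroup.out_eq' C⟩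

end Pool.Agent.H482R3.EA
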